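import Pool.Agent.TH270.MS.Sys

/-! Mean squares of the deviations: a complement to `Pool.Agent.TH270.MS.Sys`. -/

set_option autoImplicit false

open MeasureTheory Filter Topology Set Complex
open Pool.Agent.TH942.LS (Dat)
open Pool.Agent.TH942.SL
open Pool.Agent.TH942.ES
open Pool.Agent.TH270.RS (cS' dat' DD_neg)
open Pool.Agent.TH270.MS

namespace Pool.Agent.V11288.MQ

variable {lam c : ℕ → ℝ} {δ σ : ℝ}

lemma ferr_sq (D : Dat lam c δ σ) (r q : ℝ) {a b : ℝ} (ha : 1 ≤ a) :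
    IntegrableOn (fun u : ℝ => (Sh lam c u - r * Real.log u - q) ^ 2) (Ioc a b) := by
  set S₀ : ℝ := ∑' n, |c n| * Real.exp (-(σ * lam n)) with hS₀
  have h0 : 0 ≤ S₀ := tsum_nonneg fun n => by positivity
  have h1 : IntegrableOn (fun _ : ℝ => (Real.exp (σ * |b|) * S₀ + |r| * |b| + |q|) ^ 2) (Ioc a b) :=
    integrableOn_const (by simp)
  refine h1.mono' ((ferr_meas D r q).pow_const 2).aestronglyMeasurable ?_
  filter_upwards [ae_restrict_mem measurableSet_Ioc] with u hu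
  have hu1 : 1 < u := lt_of_le_of_lt ha hu.1
  have hub : u ≤ |b| := hu.2.trans (le_abs_self b)
  have e1 := sh_le D u
  have e2 : |Real.log u| ≤ |b| := by
    rw [abs_of_nonneg (Real.log_nonneg hu1.le)]
    have := Real.log_le_sub_one_of_pos (by linarith : 0 < u)
    linarith
  have e3 : Real.exp (σ * u) ≤ Real.exp (σ * |b|) :=
    Real.exp_le_exp.2 (mul_le_mul_of_nonneg_left hub D.σ0.le)
  have e4 : |Sh lam c u - r * Real.log u - q| ≤ Real.exp (σ * |b|) * S₀ + |r| * |b| + |q| := by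
    refine (abs_sub _ _).trans ?_
    gcongr
    refine (abs_sub _ _).trans ?_
    rw [abs_mul]
    gcongr
    exact e1.trans (mul_le_mul_of_nonneg_right e3 h0)
  rw [Real.norm_eq_abs, abs_pow]
  exact pow_le_pow_left₀ (abs_nonneg _) e4 2

/-- small mean squares give small means -/
theorem small_of_sq_mean (D : Dat lam c δ σ) {r q : ℝ}
    (h : Tendsto (fun T : ℝ => (∫ u in (1 : ℝ)..T, (Sh lam c u - r * Real.log u - q) ^ 2) / T) atTop
      (𝓝 0)) :
    Tendsto (fun T : ℝ => (∫ u in (1 : ℝ)..T, |Sh lam c u - r * Real.log u - q|) / T) atTop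
      (𝓝 0) := by
  set f : ℝ → ℝ := fun u => Sh lam c u - r * Real.log u - q with hf
  rw [Metric.tendsto_nhds]
  intro ε hε
  have h1 : ∀ᶠ T : ℝ in atTop, (∫ u in (1 : ℝ)..T, f u ^ 2) / T < ε ^ 2 :=
    h.eventually (gt_mem_nhds (by positivity))
  filter_upwards [h1, eventually_ge_atTop 1] with T h2 h3
  have hT0 : 0 < T := by linarith
  have i2 : IntervalIntegrable (fun u => |f u|) volume 1 T := by
    rw [intervalIntegrable_iff_integrableOn_Ioc_of_le h3]
    exact (ferr_loc D r q le_rfl).abs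
  have i3 : IntervalIntegrable (fun u => f u ^ 2) volume 1 T := by
    rw [intervalIntegrable_iff_integrableOn_Ioc_of_le h3]
    exact ferr_sq D r q le_rfl
  have e1 : ∫ u in (1 : ℝ)..T, |f u| ≤ ∫ u in (1 : ℝ)..T, (ε / 2 + f u ^ 2 * (1 / (2 * ε))) := by
    refine intervalIntegral.integral_mono_on h3 i2
      ((intervalIntegrable_const).add (i3.mul_const _)) fun u _ => ?_
    have h4 : 0 ≤ (|f u| - ε) ^ 2 := sq_nonneg _
    have h5 : |f u| ^ 2 = f u ^ 2 := sq_abs _
    have h6 : |f u| * (2 * ε) ≤ (ε / 2 + f u ^ 2 * (1 / (2 * ε))) * (2 * ε) := by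
      have : (ε / 2 + f u ^ 2 * (1 / (2 * ε))) * (2 * ε) = ε ^ 2 + f u ^ 2 := by
        field_simp
      rw [this]
      nlinarith
    exact le_of_mul_le_mul_right h6 (by linarith)
  have e2 : ∫ u in (1 : ℝ)..T, (ε / 2 + f u ^ 2 * (1 / (2 * ε))) < ε * T := by
    rw [intervalIntegral.integral_add intervalIntegrable_const (i3.mul_const _),
      intervalIntegral.integral_const, intervalIntegral.integral_mul_const, smul_eq_mul]
    rw [div_lt_iff₀ hT0] at h2
    have h5 : (∫ u in (1 : ℝ)..T, f u ^ 2) * (1 / (2 * ε)) < ε ^ 2 * T * (1 / (2 * ε)) :=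
      mul_lt_mul_of_pos_right h2 (by positivity)
    have h6 : ε ^ 2 * T * (1 / (2 * ε)) = ε / 2 * T := by
      field_simp
    nlinarith
  have e0 : 0 ≤ ∫ u in (1 : ℝ)..T, |f u| :=
    intervalIntegral.integral_nonneg h3 fun u _ => abs_nonneg _
  rw [Real.dist_eq, sub_zero, abs_of_nonneg (div_nonneg e0 hT0.le), div_lt_iff₀ hT0]
  linarith

/-- square integrability gives small mean squares -/
theorem sq_mean_of_sq {f : ℝ → ℝ} (h : IntegrableOn (fun T : ℝ => f T ^ 2) (Ioi 1)) :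
    Tendsto (fun T : ℝ => (∫ u in (1 : ℝ)..T, f u ^ 2) / T) atTop (𝓝 0) := by
  have h1 := intervalIntegral_tendsto_integral_Ioi 1 h tendsto_id
  have h2 := h1.div_atTop (tendsto_id (α := ℝ) (x := atTop))
  exact h2

variable {X : Type} {d : ℕ} {N : X → ℕ} {α : X → Fin d → ℂ} {Ψ G₀ g : ℂ → ℂ} {e : X × ℕ → ℕ}
  {m k κ : ℕ} {η C : ℝ}

theorem dv_sq_int (E : Sys N α) (he : Function.Injective e) (r : ℤ) (A : ℝ) {T : ℝ} (hT : 1 ≤ T) :
    ∫ Y in Real.exp 1..Real.exp T, Dv N α r A Y ^ 2 / Y =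
      ∫ t in (1 : ℝ)..T, (Sh (lamS N e) (cS' N α e) t - (r : ℝ) * Real.log t -
        ((r : ℝ) * Real.eulerMascheroniConstant - Real.log A)) ^ 2 := by
  rw [← cov_ii _ hT]
  refine intervalIntegral.integral_congr fun Y hY => ?_
  rw [uIcc_of_le (Real.exp_le_exp.2 hT)] at hY
  have h0 : 0 < Y := (Real.exp_pos 1).trans_le hY.1
  rw [sh_eq E he, Real.exp_log h0]
  unfold Dv
  congr 1
  ring

/-- **The mean square criterion for the order and the leading coefficient**, with the mean squares. -/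
theorem tfae_lead (H : Mc N α Ψ G₀ k κ η C) (r : ℤ) {A : ℝ} (hA : 0 < A) : List.TFAE [
    (∀ s : ℂ, 0 < s.re → Ψ s ≠ 0) ∧ Tendsto (fun s => Ψ s / s ^ r) (𝓝[≠] 0) (𝓝 (A : ℂ)),
    IntegrableOn (fun Y : ℝ => Dv N α r A Y ^ 2 / Y) (Ioi (Real.exp 1)),
    Tendsto (fun Y : ℝ => (∫ y in Real.exp 1..Y, |Dv N α r A y| / y) / Real.log Y) atTop
      (𝓝 0),
    Tendsto (fun Y : ℝ => (∫ y in Real.exp 1..Y, Dv N α r A y ^ 2 / y) / Real.log Y) atTop
      (𝓝 0)] := by
  obtain ⟨e, g, p, he, Q⟩ := H.cn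
  have t := H.tfae_lead r hA
  have h0 : (fun T : ℝ => (∫ y in Real.exp 1..Real.exp T, |Dv N α r A y| / y) /
      Real.log (Real.exp T)) =ᶠ[atTop] fun T : ℝ => (∫ u in (1 : ℝ)..T,
        |Sh (lamS N e) (cS' N α e) u - (r : ℝ) * Real.log u -
          ((r : ℝ) * Real.eulerMascheroniConstant - Real.log A)|) / T := by
    filter_upwards [eventually_ge_atTop 1] with T hT
    rw [Real.log_exp, dv_abs H.E he r A hT]
  have h0' : (fun T : ℝ => (∫ y in Real.exp 1..Real.exp T, Dv N α r A y ^ 2 / y) /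
      Real.log (Real.exp T)) =ᶠ[atTop] fun T : ℝ => (∫ u in (1 : ℝ)..T,
        (Sh (lamS N e) (cS' N α e) u - (r : ℝ) * Real.log u -
          ((r : ℝ) * Real.eulerMascheroniConstant - Real.log A)) ^ 2) / T := by
    filter_upwards [eventually_ge_atTop 1] with T hT
    rw [Real.log_exp, dv_sq_int H.E he r A hT]
  tfae_have 1 ↔ 2 := t.out 0 1
  tfae_have 1 ↔ 3 := t.out 0 2
  tfae_have 2 → 4 := by
    intro h
    rw [dv_sq H.E he] at h
    rw [tendsto_exp_iff (f := fun Y => (∫ y in Real.exp 1..Y, Dv N α r A y ^ 2 / y) / Real.log Y),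
      tendsto_congr' h0']
    exact sq_mean_of_sq h
  tfae_have 4 → 3 := by
    intro h
    rw [tendsto_exp_iff (f := fun Y => (∫ y in Real.exp 1..Y, |Dv N α r A y| / y) / Real.log Y),
      tendsto_congr' h0]
    rw [tendsto_exp_iff (f := fun Y => (∫ y in Real.exp 1..Y, Dv N α r A y ^ 2 / y) / Real.log Y),
      tendsto_congr' h0'] at h
    exact small_of_sq_mean Q.D h
  tfae_finish

end Pool.Agent.V11288.MQ
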